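import Mathlib
import Pool.Agent.helper825_CS.InvMain

set_option autoImplicit false

/-!
# Record prime gaps around a number and, at the same time, around its inverse modulo a prime

Let `f(x) = log x (log₂ x)² log₄ x / (log₃ x)²` (iterated natural logarithms), the size of the largest gaps
between consecutive primes produced by the starting files. For every large prime `q` there is an `x`, `1 ≤ x ≤ q`,
such that `x` and its inverse `y` modulo `q` are BOTH in the middle of a gap of size `≥ κ f(q)` between consecutive
primes. More generally every modular hyperbola `x y ≡ a (mod q)`, `a ≢ 0`, has such a point in every box with sides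
`L, K ≤ q` and `L K ≥ q^(3/2 + ε)`; the exponent `3/2` is the one which is known for the existence of any point at all.

Method. By Weil's bound for Kloosterman sums (a starting file of the team of helper498) the points of the hyperbola in
the box are equidistributed modulo all integers up to `q^δ` in both coordinates together
(`helper825_CS.Hyp_count`). The covering sieve for arbitrary equidistributed sets of points
(`helper825_SB.gen0S`, after helper256, helper378 and helper837) then treats both coordinates simultaneously.
-/

namespace Pool.Agent.Results.MP_ff81b6_nt.InversesInRecordGaps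

/-- The record scale `f(x) = log x (log₂ x)² log₄ x / (log₃ x)²` (iterated natural logarithms). -/
noncomputable def f (x : ℝ) : ℝ :=
  Real.log x * (Real.log (Real.log x)) ^ 2 * Real.log (Real.log (Real.log (Real.log x))) /
    (Real.log (Real.log (Real.log x))) ^ 2

/-- For every `ε > 0` there are `κ > 0` and `q₀` such that for all primes `q ≥ q₀`, all residues `a ≠ 0` modulo `q`
and all `N, L, M, K` with `L, K ≤ q` and `L K ≥ q^(3/2 + ε)` there are integers `x, y` with `N < x ≤ N + L`,
`M < y ≤ M + K` and `x y ≡ a (mod q)` such that no natural number `m` at distance at most `κ f(q)` from `x` or from `y`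
is a prime; each such `m` has a prime factor `≤ q^ε`. -/
theorem result (ε : ℝ) (hε : 0 < ε) : ∃ κ : ℝ, 0 < κ ∧ ∃ q₀ : ℕ, ∀ q : ℕ, q₀ ≤ q → q.Prime →
    ∀ a : ZMod q, a ≠ 0 → ∀ N L M K : ℕ, L ≤ q → K ≤ q → (q : ℝ) ^ (3 / 2 + ε) ≤ (L : ℝ) * K →
    ∃ x y : ℕ, N < x ∧ x ≤ N + L ∧ M < y ∧ y ≤ M + K ∧ (x : ZMod q) * (y : ZMod q) = a ∧
      ∀ m : ℕ, (|(m : ℝ) - x| ≤ κ * f q ∨ |(m : ℝ) - y| ≤ κ * f q) →
        ¬ m.Prime ∧ ∃ p : ℕ, p.Prime ∧ (p : ℝ) ≤ (q : ℝ) ^ ε ∧ p ∣ m :=
  Pool.Agent.helper825_CS.inv_gaps ε hε

end Pool.Agent.Results.MP_ff81b6_nt.InversesInRecordGaps
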