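import Pool.Agent.H763_mp.App

set_option autoImplicit false

/-! # Record prime gaps around inverses of sums modulo a prime

Let `A, B` be arbitrary sets of residues modulo a prime `P` with `|A| |B| ≥ P ^ (1 + ε)`, let `f, g` be
arbitrary functions, and let `α` be nonzero modulo `P`.  If `P` is large in terms of `ε`, some `a ∈ A`
and `b ∈ B` with `a + b` nonzero are such that the least residue `m` of `α / (a + b) + f a + g b`
modulo `P` is at least `P / 2` and no prime lies within `κ log P (log₂ P)² log₄ P / (log₃ P)²` of `m`.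

In particular every interval of length `P ^ (1 / 2 + ε)` contains an `n` prime to `P` such that the
inverse of `n` modulo `P` is such an `m`.

Proof: the exponential sums of `α / (a + b) + f a + g b` over `A × B` are at most
`2 (P |A| |B|) ^ (1/2)` (Fourier inversion for the kernel, Parseval for the weights coming from
`A, B, f, g`, and Weil's bound for Kloosterman sums, `H498R2/KlWeil.lean` of the starting files), so
the least residues are well distributed in the residue classes to the moduli up to a small power of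
`P` (`H763_mp/Crt.lean`); the covering criterion of the starting files, `TH915/PW/Crit.lean`, does the
rest. -/

namespace Pool.Agent.Results.MP_ff81b6_nt.InversesModuloPrimes

theorem result (ε : ℝ) (hε : 0 < ε) : ∃ κ : ℝ, 0 < κ ∧ ∃ P₀ : ℕ, ∀ P : ℕ, P₀ ≤ P →
    ∀ [Fact P.Prime], ∀ α : ZMod P, α ≠ 0 →
    ∀ A B : Finset (ZMod P), (P : ℝ) ^ (1 + ε) ≤ (A.card : ℝ) * (B.card : ℝ) →
    ∀ f g : ZMod P → ZMod P, ∃ a ∈ A, ∃ b ∈ B, a + b ≠ 0 ∧
      (P : ℝ) / 2 ≤ ((α * (a + b)⁻¹ + f a + g b).val : ℝ) ∧ ∀ q : ℕ, q.Prime →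
        κ * (Real.log P * (Real.log (Real.log P)) ^ 2 *
          Real.log (Real.log (Real.log (Real.log P))) / (Real.log (Real.log (Real.log P))) ^ 2) <
            |(q : ℝ) - ((α * (a + b)⁻¹ + f a + g b).val : ℝ)| := by
  obtain ⟨κ, hκ, P₀, h⟩ := Pool.Agent.H763_mp.all_kernels ε hε 2
  refine ⟨κ, hκ, P₀, fun P hP hPf α hα A B hAB f g => ?_⟩
  obtain ⟨a, ha, b, hb, h1, h2, h3⟩ := h P hP (fun a b => α * (a + b)⁻¹)
    (Or.inr (Or.inr ⟨α, hα, fun _ _ => rfl⟩)) A B hAB f g
  refine ⟨a, ha, b, hb, h1, ?_, h3⟩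
  have h4 : (P : ℝ) ≤ 2 * ((α * (a + b)⁻¹ + f a + g b).val : ℝ) := by exact_mod_cast h2
  linarith

end Pool.Agent.Results.MP_ff81b6_nt.InversesModuloPrimes
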