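import Mathlib
import Pool.Agent.Helper416_TP.Final

set_option autoImplicit false

/-!
# Gaps in random subsets of the primes: Granville's constant instead of Cramér's

Delete every prime `p` with probability `exp (-Λ(p))`, independently, where `Λ` is positive, nondecreasing and
`Λ(x) = o(log x)`. We show, without any hypothesis on the primes, that almost surely the largest gap between
consecutive remaining primes `≤ x` is at least `(2 e^{-γ} - o(1)) (log x)² / Λ(x)`, for all large `x`.

If all primes are kept with the same probability `q` this is `2 e^{-γ} / log (1 / (1 - q))` times `(log x)²`. For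
Cramér's random primes, thinned in the same way (`n` is chosen with probability `q / log n`), the corresponding
limsup is `1 / q` almost surely. For `q ≤ 1/5` the actual primes exceed this value (second part), and for `q → 0` by a
factor `2 e^{-γ} = 1.1229...`, the factor by which Granville's model corrects Cramér's conjecture `L = 1`.
If almost all primes are kept, for instance if only about `x ^ (1 - 1 / (log log x)³)` of the primes up to `x` are
deleted at random, the gaps have size `(log x) (log log x)³`, which is more than what is known for the primes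
themselves.

Proof. By Maier's matrix method (in the form with frequencies, `Pool.Agent.H510R2.Maier.G.few_freq`, helper510, which
rests on Gallagher's prime number theorem) at least `x^(1-η)` of the intervals of length `c (log x)²` up to `x` contain
only `e^γ / 2 + o(1)` times the expected number of primes. They are divided into intervals for which the number of
primes is about `(log x) / Λ(x)`, so that all of them are deleted with probability `x^(-1+η')`. The intervals are
disjoint, so the events are independent.

Author: helper416.
-/

open MeasureTheory ProbabilityTheory Filter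

namespace Pool.Agent.Results.MP_ff81b6_nt.RandomSubsetsOfPrimes

/-- The set of the primes `p` for which the event `A p` occurs. -/
def kept {Ω : Type*} (A : Nat.Primes → Set Ω) (ω : Ω) : Set ℕ :=
  {n | ∃ h : n.Prime, ω ∈ A ⟨n, h⟩}

/-- `a` and `b` are consecutive elements of `S`, and `a < b`. -/
def Consecutive (S : Set ℕ) (a b : ℕ) : Prop :=
  a ∈ S ∧ b ∈ S ∧ a < b ∧ ∀ c ∈ S, ¬ (a < c ∧ c < b)

/-- Let `A p`, for the primes `p`, be independent events of a probability space; `kept A` is the random set of the
primes `p` for which `A p` occurs.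

I. Let `Λ` be nondecreasing and positive on `[X₁, ∞)`, `Λ(x) / log x → 0`, and let every prime `p ≥ X₁` be deleted with
probability `exp (-Λ(p))`. Almost surely, for every `ε > 0` and all large `x`, the random set has consecutive elements
`a < b` with `a ≤ x` and `b - a ≥ (2 e^{-γ} - ε) (log x)² / Λ(x)`.

II. If every prime is kept with the same probability `q ≤ 1/5` then almost surely, for all large `x`, the random set
has consecutive elements `a < b` with `a ≤ x` and `b - a ≥ 1.002 (log x)² / q`. -/
theorem result {Ω : Type*} [MeasurableSpace Ω] (μ : Measure Ω) [IsProbabilityMeasure μ]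
    (A : Nat.Primes → Set Ω) (hA : ∀ p, MeasurableSet (A p)) (hind : iIndepSet A μ) :
    (∀ (Λ : ℝ → ℝ) (X₁ : ℝ), 0 < Λ X₁ → MonotoneOn Λ (Set.Ici X₁) →
      Tendsto (fun x => Λ x / Real.log x) atTop (nhds 0) →
      (∀ p : Nat.Primes, X₁ ≤ ((p : ℕ) : ℝ) → μ.real (A p)ᶜ = Real.exp (-Λ ((p : ℕ) : ℝ))) →
      ∀ᵐ ω ∂μ, ∀ ε : ℝ, 0 < ε → ∀ᶠ x : ℕ in atTop,
        ∃ a b : ℕ, Consecutive (kept A ω) a b ∧ a ≤ x ∧
          (2 * Real.exp (-Real.eulerMascheroniConstant) - ε) * (Real.log x) ^ 2 / Λ x ≤
            (b : ℝ) - a) ∧
    (∀ q : ℝ, 0 < q → q ≤ 1 / 5 → (∀ p, μ.real (A p) = q) →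
      ∀ᵐ ω ∂μ, ∀ᶠ x : ℕ in atTop, ∃ a b : ℕ, Consecutive (kept A ω) a b ∧ a ≤ x ∧
        1.002 * (Real.log x) ^ 2 / q ≤ (b : ℝ) - a) :=
  ⟨fun _ _ h1 h2 h3 h4 => Pool.Agent.Helper416_TP.main hA hind h1 h2 h3 h4,
    fun q h1 h2 h3 => Pool.Agent.Helper416_TP.const_q hA hind q h1 h2 h3⟩

end Pool.Agent.Results.MP_ff81b6_nt.RandomSubsetsOfPrimes
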