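import Pool.Agent.Helper123.SM.Win2

set_option autoImplicit false

/-!
# Prime-free windows around the values of arbitrary linear forms at one integer

Let `𝓦` be an ARBITRARY finite set of linear forms `α n + β` with integers `1 ≤ α ≤ exp ((log X)^(D+1))`,
`|β| ≤ exp ((log X)^(D+1))`, and let `K(w) ≥ √(log X)` for `w ∈ 𝓦`, with

`∑_(w ∈ 𝓦) K(w) ≤ c log X log log X`.

Every interval `(z + X/4, z + X]` contains an integer `n` such that for ALL forms `w` of `𝓦` no prime lies within `K(w)`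
of `w(n) = α n + β`. At the same time all the values at `n` of the forms of a further arbitrary finite set `𝓛` are not
prime, if `∑ K(w) + ∑_𝓛 α / φ(α) ≤ c log X log log X`. The sets and `K` may depend on `X`.

So gaps of the length `log X log log X`, longer than the published record `log X log₂ X log₄ X / log₃ X`, can be
divided in an arbitrary way among up to `c √(log X) log log X` arbitrary linear forms, evaluated at the same integer. There
is no loss from the small prime factors of the `α`, although the classes modulo the prime factors of `α` are not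
available for the form `α n + β`: the values `α n + β + j` for which `β + j` has a common factor with `α` are composite,
and Selberg's sieve (starting files `Pool/Agent/Helper923/PPS`, `Pool/Agent/H95R2/Leh`) bounds the number of the others.
The classes modulo the primes `≤ (log X) / 10` are chosen by a weighted average over the forms, the survivors are
covered by larger primes (covering theorem of the starting files, helper256 and helper361, applied to the reduced forms).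
-/

namespace Pool.Agent.Results.MP_ff81b6_nt.WindowsOfLinearForms

/-- For every `D` there are `c > 0` and `X₀` such that for all `X ≥ X₀`, with `E = exp ((log X)^(D+1))`: let `𝓦` and `𝓛`
be finite sets of forms `α n + β` (pairs `(α, β)`) with `1 ≤ α ≤ E`, `|β| ≤ E`, and let `K(w) ≥ √(log X)`, `w ∈ 𝓦`, with
`∑_𝓦 K(w) + ∑_𝓛 α/φ(α) ≤ c log X log log X`. Every interval `(z + X/4, z + X]` contains an integer `n` such that no
`α n + β + j` with `(α, β) ∈ 𝓦`, `|j| ≤ K(α, β)`, and no `α n + β` with `(α, β) ∈ 𝓛` is a prime or minus a prime. -/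
theorem result (D : ℕ) : ∃ c : ℝ, 0 < c ∧ ∃ X₀ : ℝ, ∀ X : ℝ, X₀ ≤ X →
    ∀ (𝓦 : Finset (ℕ × ℤ)) (K : ℕ × ℤ → ℝ),
    (∀ w ∈ 𝓦, 1 ≤ w.1 ∧ (w.1 : ℝ) ≤ Real.exp ((Real.log X) ^ (D + 1)) ∧
      |(w.2 : ℝ)| ≤ Real.exp ((Real.log X) ^ (D + 1)) ∧ Real.sqrt (Real.log X) ≤ K w) →
    ∀ 𝓛 : Finset (ℕ × ℤ),
    (∀ x ∈ 𝓛, 1 ≤ x.1 ∧ (x.1 : ℝ) ≤ Real.exp ((Real.log X) ^ (D + 1)) ∧
      |(x.2 : ℝ)| ≤ Real.exp ((Real.log X) ^ (D + 1))) →
    ∑ w ∈ 𝓦, K w + ∑ x ∈ 𝓛, (x.1 : ℝ) / (Nat.totient x.1 : ℝ) ≤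
      c * (Real.log X * Real.log (Real.log X)) →
    ∀ z : ℤ, ∃ n : ℤ, (z : ℝ) + X / 4 < n ∧ (n : ℝ) ≤ z + X ∧
      (∀ w ∈ 𝓦, ∀ j : ℤ, |(j : ℝ)| ≤ K w → ¬ ((w.1 : ℤ) * n + (w.2 + j)).natAbs.Prime) ∧
      ∀ x ∈ 𝓛, ¬ ((x.1 : ℤ) * n + x.2).natAbs.Prime := by
  obtain ⟨c₁, hc₁, X₁, h1⟩ := Pool.Agent.Helper123.SM.windowsA D
  refine ⟨c₁, hc₁, X₁, fun X hX 𝓦 K h𝓦 𝓛 h𝓛 hsum z => ?_⟩
  have hlog : ∀ α : ℕ, 1 ≤ α → (α : ℝ) ≤ Real.exp ((Real.log X) ^ (D + 1)) →
      Real.log α ≤ (Real.log X) ^ (D + 1) := by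
    intro α hα1 hα
    have hα0 : (0 : ℝ) < α := by exact_mod_cast hα1
    rw [← Real.log_exp ((Real.log X) ^ (D + 1))]
    exact Real.log_le_log hα0 hα
  obtain ⟨n, e1, e2, e3, e4⟩ := h1 X hX 𝓦 K
    (fun w hw => ⟨(h𝓦 w hw).1, hlog w.1 (h𝓦 w hw).1 (h𝓦 w hw).2.1, (h𝓦 w hw).2.2⟩) 𝓛
    (fun x hx => ⟨(h𝓛 x hx).1, hlog x.1 (h𝓛 x hx).1 (h𝓛 x hx).2.1, (h𝓛 x hx).2.2⟩) hsum z
  exact ⟨n, e1, e2, fun w hw j hj hp => e3 w hw j hj (Int.prime_iff_natAbs_prime.2 hp),
    fun x hx hp => e4 x hx (Int.prime_iff_natAbs_prime.2 hp)⟩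

end Pool.Agent.Results.MP_ff81b6_nt.WindowsOfLinearForms
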